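import Pool.Agent.Helper15.AM.GoalsG

/-!
Packet AM-VD: the whole group.
-/

set_option autoImplicit false

open LaurentPolynomial Pool.Agent.Helper15.RA Pool.Agent.Helper45.AM

noncomputable section

namespace Pool.Agent.Helper3.AM

theorem mem_par_univ {S W : Type} [Group W] {M : CoxeterMatrix S} (cs : CoxeterSystem M W) (w : W) :
    w ∈ par cs Set.univ := by
  unfold par
  rw [Set.image_univ, cs.subgroup_closure_range_simple]
  trivial

theorem h_vd : Pool.Agent.Helper15.AM.V_D := by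
  intro S W H _ _ _ X α hP
  have hm : ∀ w : W, w ∈ par X.cs Set.univ := mem_par_univ X.cs
  refine ⟨?_, ⟨X.isH, ?_, ?_, ?_, ?_⟩, ?_⟩
  · obtain ⟨N, hN⟩ := hP.bdd
    exact ⟨N, fun x y z => hN x (hm x) y (hm y) z⟩
  · intro z
    refine ⟨fun x y => hP.deg x (hm x) y (hm y) z (hm z), ?_⟩
    obtain ⟨x, _, y, _, h⟩ := hP.low z (hm z)
    exact ⟨x, y, fun hd => h (hd (α z) (by omega))⟩
  · exact fun z => hP.p1 z (hm z)
  · exact fun x y z h => hP.p4 x (hm x) y (hm y) z (hm z) h
  · exact fun x y z h => hP.p8 x (hm x) y (hm y) z (hm z) h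
  · intro g
    obtain ⟨lam, _, h⟩ := hP.u g (hm g)
    exact ⟨lam, fun z => h z (hm z)⟩

end Pool.Agent.Helper3.AM
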